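import Pool.Agent.helper58.FS.Defs

/-!
# [FS-L] leading terms lemma (for helper58, MP_7ca7f9_al)
-/

set_option autoImplicit false

open scoped Matrix
open Pool.Agent.helper73.TC

namespace Pool.Agent.helper58.FS

variable {K : Type} [Field K] [Infinite K]

theorem leading_two {A B : Type} [AddCommGroup A] [Module K A]
    [AddCommGroup B] [Module K B] [FiniteDimensional K A] (m M : A →ₗ[K] B)
    (h : ∀ z : A, m z = 0 → M z ∈ LinearMap.range m → z = 0) :
    ∃ τ : K, Function.Injective (m + τ • M) := by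
  obtain ⟨C, hC⟩ := Submodule.exists_isCompl (LinearMap.ker m)
  -- the map `Φ₀ (a, a') = M a + m a'`
  let Φ0 : (LinearMap.ker m × C) →ₗ[K] B :=
    (M ∘ₗ (LinearMap.ker m).subtype).coprod (m ∘ₗ C.subtype)
  have hΦ0 : Function.Injective Φ0 := by
    rw [← LinearMap.ker_eq_bot, LinearMap.ker_eq_bot']
    rintro ⟨⟨a, ha⟩, ⟨c, hc⟩⟩ h0
    have h1 : M a + m c = 0 := by simpa [Φ0] using h0
    have ha0 : a = 0 := by
      apply h a (by simpa using ha)
      refine ⟨-c, ?_⟩
      rw [map_neg]
      exact (eq_neg_of_add_eq_zero_left h1).symm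
    subst ha0
    have hc0 : m c = 0 := by simpa using h1
    have : c ∈ LinearMap.ker m ⊓ C := ⟨by simpa using hc0, hc⟩
    rw [hC.inf_eq_bot] at this
    have hc1 : c = 0 := by simpa using this
    subst hc1
    rfl
  obtain ⟨Λ, hΛ⟩ := LinearMap.exists_leftInverse_of_injective Φ0 (LinearMap.ker_eq_bot.mpr hΦ0)
  let N : Module.End K (LinearMap.ker m × C) :=
    Λ ∘ₗ M ∘ₗ C.subtype ∘ₗ LinearMap.snd K (LinearMap.ker m) C
  have hfin : ({x : K | N.HasEigenvalue x} ∪ {0}).Finite :=
    (Module.End.finite_hasEigenvalue N).union (Set.finite_singleton 0)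
  obtain ⟨x, hx⟩ := hfin.exists_notMem
  have hx0 : x ≠ 0 := fun h' => hx (Or.inr h')
  have hxN : ¬ N.HasEigenvalue x := fun h' => hx (Or.inl h')
  refine ⟨-x⁻¹, ?_⟩
  rw [← LinearMap.ker_eq_bot, LinearMap.ker_eq_bot']
  intro z hz
  obtain ⟨a, ha, c, hc, rfl⟩ : ∃ a ∈ LinearMap.ker m, ∃ c ∈ C, a + c = z := by
    have : z ∈ LinearMap.ker m ⊔ C := by rw [hC.sup_eq_top]; trivial
    exact Submodule.mem_sup.mp this
  have hma : m a = 0 := by simpa using ha
  have hz' : m c + (-x⁻¹) • M a + (-x⁻¹) • M c = 0 := by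
    have := hz
    simp only [LinearMap.add_apply, LinearMap.smul_apply, map_add, hma, zero_add] at this
    rw [← this]; abel
  -- apply `Λ`
  let v : LinearMap.ker m × C := (⟨(-x⁻¹) • a, Submodule.smul_mem _ _ ha⟩, ⟨c, hc⟩)
  have h2 : Φ0 v + (-x⁻¹) • M c = 0 := by
    have : Φ0 v = (-x⁻¹) • M a + m c := by simp [Φ0, v]
    rw [this, ← hz']; abel
  have h3 : v + (-x⁻¹) • N v = 0 := by
    have h4 := congrArg Λ h2
    rw [map_add, map_smul, map_zero] at h4
    have h5 : Λ (Φ0 v) = v := by
      have := LinearMap.congr_fun hΛ v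
      simpa using this
    rw [h5] at h4
    exact h4
  have h6 : N v = x • v := by
    have h7 : x⁻¹ • N v = v := by
      have := h3
      rw [neg_smul, ← sub_eq_add_neg, sub_eq_zero] at this
      exact this.symm
    calc N v = x • (x⁻¹ • N v) := by rw [smul_smul, mul_inv_cancel₀ hx0, one_smul]
      _ = x • v := by rw [h7]
  have hv : v = 0 := by
    by_contra hv0
    apply hxN
    exact Module.End.hasEigenvalue_of_hasEigenvector ⟨Module.End.mem_eigenspace_iff.mpr h6, hv0⟩
  have hv1 : (-x⁻¹) • a = 0 := by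
    have := congrArg (fun w : LinearMap.ker m × C => (w.1 : A)) hv
    simpa [v] using this
  have hv2 : c = 0 := by
    have := congrArg (fun w : LinearMap.ker m × C => (w.2 : A)) hv
    simpa [v] using this
  have ha0 : a = 0 := by
    rcases smul_eq_zero.mp hv1 with h8 | h8
    · exact absurd (by simpa using h8) hx0
    · exact h8
  rw [ha0, hv2, add_zero]

theorem coe_sum_aux {K' ι A B : Type} [Field K'] [AddCommGroup A] [Module K' A]
    [AddCommGroup B] [Module K' B] (s : Finset ι) (f : ι → A →ₗ[K'] B) :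
    (∑ j ∈ s, (f j : A → B)) = ((∑ j ∈ s, f j : A →ₗ[K'] B) : A → B) := by
  funext x
  simp [Finset.sum_apply, LinearMap.sum_apply]

/-- if no nonzero `z` satisfies `m_j z ∈ ∑_{i<j} range m_i` for all `j`, then some linear
combination of the `m_j` is injective -/
theorem leading (r : ℕ) {A B : Type} [AddCommGroup A] [Module K A]
    [AddCommGroup B] [Module K B] [FiniteDimensional K A] (m : Fin r → A →ₗ[K] B)
    (h : ∀ z : A, (∀ j : Fin r, m j z ∈ ⨆ i : Fin r, ⨆ _ : i < j, LinearMap.range (m i)) → z = 0) :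
    ∃ t : Fin r → K, Function.Injective (∑ j, t j • m j) := by
  induction r generalizing A B with
  | zero =>
    refine ⟨fun _ => 0, fun a b _ => ?_⟩
    rw [h a (fun j => j.elim0), h b (fun j => j.elim0)]
  | succ r ih =>
    let q := (LinearMap.range (m 0)).mkQ
    let m' : Fin r → (LinearMap.ker (m 0)) →ₗ[K] (B ⧸ LinearMap.range (m 0)) := fun j =>
      q ∘ₗ m j.succ ∘ₗ (LinearMap.ker (m 0)).subtype
    have hm' : ∀ z : LinearMap.ker (m 0),
        (∀ j : Fin r, m' j z ∈ ⨆ i : Fin r, ⨆ _ : i < j, LinearMap.range (m' i)) → z = 0 := by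
      rintro ⟨z, hz⟩ hj
      have hz0 : m 0 z = 0 := by simpa using hz
      have hzz : z = 0 := by
        apply h z
        intro j
        induction j using Fin.cases with
        | zero => rw [hz0]; exact Submodule.zero_mem _
        | succ j =>
          have h1 := hj j
          have h2 : (⨆ i : Fin r, ⨆ _ : i < j, LinearMap.range (m' i)) ≤
              Submodule.map q (⨆ i : Fin (r+1), ⨆ _ : i < j.succ, LinearMap.range (m i)) := by
            refine iSup_le fun i => iSup_le fun hi => ?_
            rintro _ ⟨y, rfl⟩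
            refine ⟨m i.succ y, ?_, rfl⟩
            have : LinearMap.range (m i.succ) ≤
                ⨆ i : Fin (r+1), ⨆ _ : i < j.succ, LinearMap.range (m i) :=
              le_iSup₂_of_le i.succ (Fin.succ_lt_succ_iff.mpr hi) le_rfl
            exact this ⟨y, rfl⟩
          obtain ⟨w, hw, hw'⟩ := h2 h1
          have h3 : m j.succ z - w ∈ LinearMap.range (m 0) := by
            have : q w = q (m j.succ z) := hw'
            have h4 := (Submodule.Quotient.eq (LinearMap.range (m 0))).mp this
            have := Submodule.neg_mem _ h4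
            simpa using this
          have h5 : LinearMap.range (m 0) ≤
              ⨆ i : Fin (r+1), ⨆ _ : i < j.succ, LinearMap.range (m i) :=
            le_iSup₂_of_le 0 (Fin.succ_pos j) le_rfl
          have := Submodule.add_mem _ (h5 h3) hw
          simpa using this
      subst hzz
      rfl
    obtain ⟨t', ht'⟩ := ih m' hm'
    rw [coe_sum_aux] at ht'
    obtain ⟨τ, hτ⟩ := leading_two (m 0) (∑ j, t' j • m j.succ) (by
      intro z hz hM
      have h1 : (∑ j, t' j • m' j) ⟨z, by simpa using hz⟩ = 0 := by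
        have : (∑ j, t' j • m' j) ⟨z, by simpa using hz⟩ = q ((∑ j, t' j • m j.succ) z) := by
          simp [m', LinearMap.sum_apply, map_sum]
        rw [this]
        exact (Submodule.Quotient.mk_eq_zero _).mpr hM
      have h2 : (⟨z, by simpa using hz⟩ : LinearMap.ker (m 0)) = 0 := by
        apply ht'
        rw [h1, map_zero]
      exact congrArg Subtype.val h2)
    refine ⟨Fin.cons 1 (fun j => τ * t' j), ?_⟩
    have : (∑ j, (Fin.cons 1 (fun j => τ * t' j) : Fin (r+1) → K) j • m j) =
        m 0 + τ • ∑ j, t' j • m j.succ := by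
      rw [Fin.sum_univ_succ]
      simp [Finset.smul_sum, smul_smul]
    rw [coe_sum_aux, this]
    exact hτ

end Pool.Agent.helper58.FS
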